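import Pool.Agent.Helper665_GA.Transfer

/-!
# Ring isomorphic Leavitt path algebras have homotopy equivalent graph C*-algebras

For countable directed graphs `E`, `F`: if the complex Leavitt path algebras of `E` and `F` are
isomorphic as rings, then the graph C*-algebras `C*(E)` and `C*(F)` are homotopy equivalent.
-/

namespace Pool.Agent.Results.MP_b75a39_al.HomotopyEquiv

open Pool.Agent.Helper665_GA

/-- If `L_ℂ(E)` and `L_ℂ(F)` are isomorphic as rings, then `C*(E)` and `C*(F)` are homotopy
equivalent. -/
theorem result (E F : Graph) [Countable E.V] [Countable E.E] [Countable F.V] [Countable F.E]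
    (h : Nonempty (Leavitt ℂ E ≃+* Leavitt ℂ F)) : HomotopyEquivalent (CStar E) (CStar F) := by
  obtain ⟨f, g, h1, h2⟩ := exists_algebra_iso h
  exact homotopyEquivalent_of_algEquiv f g h1 h2

end Pool.Agent.Results.MP_b75a39_al.HomotopyEquiv
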