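import Pool.Agent.Helper665_GA.StarIso
import Pool.Agent.Helper665_GA.CtblTransfer

/-!
# Q1 when no cycle of the countable graph `E` has an exit, for arbitrary `F`

Let `E` be a countable directed graph in which no cycle has an exit, and `F` an arbitrary directed
graph. If the complex Leavitt path algebras of `E` and `F` are isomorphic as rings, then `C*(E)`
and `C*(F)` are `*`-isomorphic.
-/

namespace Pool.Agent.Results.MP_b75a39_al.NoExitGraphs

open Pool.Agent.Helper665_GA

/-- If no cycle of the countable graph `E` has an exit and `L_ℂ(E)` and `L_ℂ(F)` are isomorphic as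
rings, then `C*(E)` and `C*(F)` are isomorphic as `*`-algebras. -/
theorem result (E F : Graph) [Countable E.V] [Countable E.E] (hE : E.NoExit)
    (h : Nonempty (Leavitt ℂ E ≃+* Leavitt ℂ F)) : Nonempty (CStar E ≃⋆ₐ[ℂ] CStar F) := by
  obtain ⟨φ, ψ, h1, h2⟩ := exists_algebra_iso h
  have hF := LPA.noExit_of_iso hE φ ψ h2
  obtain ⟨c1, c2⟩ := LPA.countable_of_iso φ fun y => ⟨ψ y, h2 y⟩
  exact noExit_iso hE hF h

end Pool.Agent.Results.MP_b75a39_al.NoExitGraphs
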