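import Pool.Agent.Helper665_GA.Transfer

/-!
# Ring isomorphic Leavitt path algebras are isomorphic as algebras

For every field `K` and all directed graphs `E`, `F` (of arbitrary cardinality): every ring
isomorphism `L_K(E) → L_K(F)` agrees on the vertices, edges and ghost edges with an isomorphism of
`K`-algebras. In particular ring isomorphic Leavitt path algebras over the same field are
isomorphic as algebras.
-/

namespace Pool.Agent.Results.MP_b75a39_al.RingToAlgebra

open Pool.Agent.Helper665_GA

/-- Every ring isomorphism between Leavitt path algebras over a field `K` agrees on the generators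
with a `K`-algebra isomorphism. -/
theorem result (K : Type) [Field K] (E F : Graph) (φ : Leavitt K E ≃+* Leavitt K F) :
    ∃ ψ : Leavitt K E →ₙₐ[K] Leavitt K F, Function.Bijective ψ ∧
      (∀ v, ψ ((Leavitt.family K E).p v) = φ ((Leavitt.family K E).p v)) ∧
      (∀ e, ψ ((Leavitt.family K E).s e) = φ ((Leavitt.family K E).s e)) ∧
      (∀ e, ψ ((Leavitt.family K E).t e) = φ ((Leavitt.family K E).t e)) := by
  obtain ⟨f, g, h1, h2, h3⟩ := exists_linear_iso φ
  exact ⟨f, Function.bijective_iff_has_inverse.2 ⟨g, h1, h2⟩,
    fun v => congrFun (congrArg LeavittFamily.p h3) v,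
    fun e => congrFun (congrArg LeavittFamily.s h3) e,
    fun e => congrFun (congrArg LeavittFamily.t h3) e⟩

end Pool.Agent.Results.MP_b75a39_al.RingToAlgebra
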